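import Pool.Agent.H970.RN.Defs
import Pool.Graph.R_seed8.Y13.QM.Fin

/-!
# From the influence of the boundary to the decay of the correlations, uniformly in the number of
components
-/

set_option autoImplicit false
set_option linter.unusedSectionVars false

noncomputable section

namespace Pool.Agent.H297.RN

open MvPolynomial MeasureTheory Pool.Agent.H5R2.ON Pool.Agent.H717R2.ON3 Pool.Agent.H983R2.ONJ
open Pool.Agent.H983R2.ONJ.Aux993 Pool.Agent.H983R2.ONJ.AuxFin269
open Pool.Agent.Y13.QM Pool.Agent.H970.RG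

/-- the exit inequality, with an influence bound at one scale -/
theorem decayR (a : ℝ) (ha : 0 < a) : ∃ P₀ : ℝ, 0 < P₀ ∧ ∀ A : ℝ, 0 ≤ A → ∀ N : ℕ, 3 ≤ N →
    ∀ R m : ℝ, 0 ≤ m → 4 ≤ R → 2 / a ≤ R → MBJ N A a (R / 4) m →
    P₀ * A * (m * R ^ 2 + R ^ 2 * Real.exp (-(a * R / 8))) ≤ 1 / 2 →
    ∀ (L : ℕ) [NeZero L] (c : Tor L × Tor L → ℝ), ExpC A a c → ∀ (x y : Tor L),
      corS (N := N) c x y ≤
        Real.exp 2 * Real.exp (-(1 / R) * tnorm (x - y)) := by
  obtain ⟨K0, hK0, hK⟩ := card_ball_le
  obtain ⟨Kl, hKl0, hKl⟩ := lsum (a / 4) (by positivity)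
  refine ⟨16 * Real.exp 1 * K0 * Kl, by positivity, ?_⟩
  intro A hA N hN R m hm0 hR4 hRa hMB hR' L _ c hc
  have hN0 : N ≠ 0 := by omega
  have hR : (16 * A * Real.exp 1 * K0 * Kl) * (m * R ^ 2 +
      R ^ 2 * Real.exp (-(a * R / 8))) ≤ 1 / 2 := by
    refine le_trans (le_of_eq ?_) hR'
    ring
  have hR0 : 0 < R := by linarith
  obtain ⟨b, hb⟩ : ∃ b : ℝ, b = 1 / R := ⟨_, rfl⟩
  have hbR' : b = 1 / R := hb
  have hb0 : 0 < b := by rw [hb]; positivity
  have hba : b ≤ a / 2 := by
    rw [hbR', div_le_iff₀ hR0]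
    rw [div_le_iff₀ ha] at hRa
    linarith
  have hbR : b * R ≤ 1 := by
    rw [hbR']
    exact (one_div_mul_cancel hR0.ne').le
  rw [← hb]
  have hc0 : ∀ e, 0 ≤ c e := fun e => (hc e).1
  by_cases hL : (L : ℝ) ≤ 2 * R
  · intro x y
    have h1 := corS_le_one hN0 c x y
    have h2 : tnorm (x - y) ≤ 2 * R := (tnorm_le_L _).trans hL
    rw [← Real.exp_add]
    refine h1.trans (Real.one_le_exp ?_)
    nlinarith
  push Not at hL
  -- the maximum
  obtain ⟨q, -, hq⟩ := Finset.exists_max_image (Finset.univ : Finset (Tor L × Tor L))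
    (fun q => corS (N := N) c q.1 q.2 * Real.exp (b * tnorm (q.1 - q.2))) ⟨(0, 0), Finset.mem_univ _⟩
  obtain ⟨M, hM⟩ : ∃ M : ℝ, M = corS (N := N) c q.1 q.2 * Real.exp (b * tnorm (q.1 - q.2)) :=
    ⟨_, rfl⟩
  have hmax : ∀ x y : Tor L, corS (N := N) c x y ≤ M * Real.exp (-(b * tnorm (x - y))) := by
    intro x y
    have h1 := hq (x, y) (Finset.mem_univ _)
    simp only at h1
    rw [← hM] at h1
    rw [Real.exp_neg, ← div_eq_mul_inv, le_div_iff₀ (Real.exp_pos _)]
    exact h1
  have hM0 : 0 ≤ M := by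
    rw [hM]
    exact mul_nonneg (corS_nonneg hN0 hc0 _ _) (Real.exp_pos _).le
  -- it is at most `e`
  have hMe : M ≤ Real.exp 1 := by
    obtain ⟨p, y⟩ := q
    simp only at hM
    by_cases hpy : tnorm (p - y) ≤ R
    · rw [hM]
      have h1 := corS_le_one hN0 c p y
      have h2 : Real.exp (b * tnorm (p - y)) ≤ Real.exp 1 := by
        refine Real.exp_le_exp.mpr ?_
        nlinarith
      have h3 := corS_nonneg hN0 hc0 p y
      have h4 := Real.exp_pos (b * tnorm (p - y))
      nlinarith
    · push Not at hpy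
      have hyp : R < tnorm (y - p) := by rw [tnorm_sub_comm]; exact hpy
      have hexit := corS_exit hN0 hc0 p y R m hR0 hyp hm0 (fun η i =>
        hMB L (by linarith) c hc p η i)
      -- one term
      obtain ⟨g, hg⟩ : ∃ g : Tor L → ℝ, g = fun z => Real.exp (-(a / 4) * tnorm z) := ⟨_, rfl⟩
      have hg0 : ∀ z, 0 ≤ g z := fun z => by rw [hg]; exact (Real.exp_pos _).le
      have hgsum : ∑ z : Tor L, g z ≤ Kl := by
        refine (Finset.sum_le_sum fun z _ => ?_).trans (hKl L)
        rw [hg]
        simp only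
        have h1 : (1 : ℝ) ≤ (1 + tnorm z) ^ 2 := by
          have := tnorm_nonneg z
          nlinarith
        have h2 := Real.exp_pos (-(a / 4) * tnorm z)
        nlinarith
      have hterm : ∀ w ∈ ball p R, ∀ w' ∈ (ball p R)ᶜ,
          2 * (c (w, w') + c (w', w)) * (if tnorm (w - p) ≤ R / 2 then 1 else m) *
            corS (N := N) c w' y * Real.exp (b * tnorm (p - y)) ≤
          4 * A * Real.exp 1 * M * ((m + Real.exp (-(a * R / 8))) * g (w' - w)) := by
        intro w hw w' hw'
        simp only [ball, Finset.mem_filter, Finset.mem_univ, true_and, Finset.mem_compl,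
          not_le] at hw hw'
        obtain ⟨t, ht⟩ : ∃ t : ℝ, t = tnorm (w' - w) := ⟨_, rfl⟩
        have ht0 : 0 ≤ t := by rw [ht]; exact tnorm_nonneg _
        -- the couplings
        have h1 : c (w, w') ≤ A * Real.exp (-a * t) := by rw [ht]; exact (hc (w, w')).2
        have h2 : c (w', w) ≤ A * Real.exp (-a * t) := by
          rw [ht, tnorm_sub_comm]; exact (hc (w', w)).2
        have h3 : 0 ≤ c (w, w') + c (w', w) := add_nonneg (hc0 _) (hc0 _)
        -- the factor
        obtain ⟨f, hf⟩ : ∃ f : ℝ, f = (if tnorm (w - p) ≤ R / 2 then 1 else m) := ⟨_, rfl⟩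
        rw [← hf]
        have hf0 : 0 ≤ f := by
          rw [hf]
          split_ifs
          · exact zero_le_one
          · exact hm0
        have hfg : f * Real.exp (-(a / 2) * t) ≤
            (m + Real.exp (-(a * R / 8))) * Real.exp (-(a / 4) * t) := by
          by_cases h : tnorm (w - p) ≤ R / 2
          · rw [hf, if_pos h, one_mul]
            have h4 : R / 2 ≤ t := by
              have := tnorm_add_le (w' - w) (w - p)
              rw [sub_add_sub_cancel] at this
              rw [ht]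
              linarith
            have h5 : Real.exp (-(a / 2) * t) ≤
                Real.exp (-(a * R / 8)) * Real.exp (-(a / 4) * t) := by
              rw [← Real.exp_add]
              refine Real.exp_le_exp.mpr ?_
              nlinarith
            refine h5.trans (mul_le_mul_of_nonneg_right ?_ (Real.exp_pos _).le)
            linarith
          · rw [hf, if_neg h]
            refine mul_le_mul ?_ ?_ (Real.exp_pos _).le ?_
            · have := Real.exp_pos (-(a * R / 8))
              linarith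
            · refine Real.exp_le_exp.mpr ?_
              nlinarith
            · have := Real.exp_pos (-(a * R / 8))
              linarith
        -- the triangle inequality
        have h6 : tnorm (p - y) ≤ R + t + tnorm (w' - y) := by
          have e1 := tnorm_add_le (p - w) (w - y)
          have e2 := tnorm_add_le (w - w') (w' - y)
          rw [sub_add_sub_cancel] at e1 e2
          rw [tnorm_sub_comm p w] at e1
          rw [tnorm_sub_comm w w'] at e2
          rw [ht]
          linarith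
        have h7 : Real.exp (b * tnorm (p - y)) ≤
            Real.exp 1 * Real.exp ((a / 2) * t) * Real.exp (b * tnorm (w' - y)) := by
          rw [← Real.exp_add, ← Real.exp_add]
          refine Real.exp_le_exp.mpr ?_
          nlinarith
        have h8 := hmax w' y
        have h9 := corS_nonneg hN0 hc0 w' y
        have h10 : corS (N := N) c w' y * Real.exp (b * tnorm (p - y)) ≤
            M * (Real.exp 1 * Real.exp ((a / 2) * t)) := by
          calc corS (N := N) c w' y * Real.exp (b * tnorm (p - y))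
              ≤ (M * Real.exp (-(b * tnorm (w' - y)))) *
                (Real.exp 1 * Real.exp ((a / 2) * t) * Real.exp (b * tnorm (w' - y))) :=
                mul_le_mul h8 h7 (Real.exp_pos _).le (by positivity)
            _ = M * (Real.exp 1 * Real.exp ((a / 2) * t)) *
                (Real.exp (-(b * tnorm (w' - y))) * Real.exp (b * tnorm (w' - y))) := by ring
            _ = M * (Real.exp 1 * Real.exp ((a / 2) * t)) := by
                have h12 : Real.exp (-(b * tnorm (w' - y))) * Real.exp (b * tnorm (w' - y)) = 1 := by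
                  rw [← Real.exp_add, neg_add_cancel, Real.exp_zero]
                rw [h12, mul_one]
        have hgw : g (w' - w) = Real.exp (-(a / 4) * t) := by rw [hg, ht]
        rw [hgw]
        have h11 : Real.exp (-a * t) * Real.exp ((a / 2) * t) = Real.exp (-(a / 2) * t) := by
          rw [← Real.exp_add]
          congr 1
          ring
        calc 2 * (c (w, w') + c (w', w)) * f * corS (N := N) c w' y * Real.exp (b * tnorm (p - y))
            = (2 * (c (w, w') + c (w', w)) * f) *
              (corS (N := N) c w' y * Real.exp (b * tnorm (p - y))) := by ring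
          _ ≤ (4 * (A * Real.exp (-a * t)) * f) *
              (M * (Real.exp 1 * Real.exp ((a / 2) * t))) := by
              refine mul_le_mul ?_ h10 (mul_nonneg h9 (Real.exp_pos _).le) (by positivity)
              refine mul_le_mul_of_nonneg_right ?_ hf0
              linarith
          _ = 4 * A * Real.exp 1 * M *
              (f * (Real.exp (-a * t) * Real.exp ((a / 2) * t))) := by ring
          _ = 4 * A * Real.exp 1 * M * (f * Real.exp (-(a / 2) * t)) := by rw [h11]
          _ ≤ 4 * A * Real.exp 1 * M *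
              ((m + Real.exp (-(a * R / 8))) * Real.exp (-(a / 4) * t)) :=
              mul_le_mul_of_nonneg_left hfg (by positivity)
      -- the sum
      have hsum : M ≤ 4 * A * Real.exp 1 * M *
          ((m + Real.exp (-(a * R / 8))) * (K0 * (1 + R) ^ 2 * Kl)) := by
        have hmE : 0 ≤ m + Real.exp (-(a * R / 8)) := by
          have := Real.exp_pos (-(a * R / 8))
          linarith
        calc M = corS (N := N) c p y * Real.exp (b * tnorm (p - y)) := hM
          _ ≤ (∑ w ∈ ball p R, ∑ w' ∈ (ball p R)ᶜ,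
              2 * (c (w, w') + c (w', w)) * (if tnorm (w - p) ≤ R / 2 then 1 else m) *
              corS (N := N) c w' y) * Real.exp (b * tnorm (p - y)) :=
              mul_le_mul_of_nonneg_right hexit (Real.exp_pos _).le
          _ = ∑ w ∈ ball p R, ∑ w' ∈ (ball p R)ᶜ,
              2 * (c (w, w') + c (w', w)) * (if tnorm (w - p) ≤ R / 2 then 1 else m) *
              corS (N := N) c w' y * Real.exp (b * tnorm (p - y)) := by
              rw [Finset.sum_mul]
              exact Finset.sum_congr rfl fun w _ => Finset.sum_mul _ _ _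
          _ ≤ ∑ w ∈ ball p R, ∑ w' ∈ (ball p R)ᶜ,
              4 * A * Real.exp 1 * M * ((m + Real.exp (-(a * R / 8))) * g (w' - w)) :=
              Finset.sum_le_sum fun w hw => Finset.sum_le_sum fun w' hw' => hterm w hw w' hw'
          _ ≤ ∑ w ∈ ball p R,
              4 * A * Real.exp 1 * M * ((m + Real.exp (-(a * R / 8))) * Kl) := by
              refine Finset.sum_le_sum fun w _ => ?_
              rw [← Finset.mul_sum, ← Finset.mul_sum]
              refine mul_le_mul_of_nonneg_left (mul_le_mul_of_nonneg_left ?_ hmE) (by positivity)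
              calc ∑ w' ∈ (ball p R)ᶜ, g (w' - w) ≤ ∑ w' : Tor L, g (w' - w) :=
                    Finset.sum_le_univ_sum_of_nonneg fun w' => hg0 _
                _ = ∑ z : Tor L, g z := sum_shift g w
                _ ≤ Kl := hgsum
          _ = ((ball p R).card : ℝ) *
              (4 * A * Real.exp 1 * M * ((m + Real.exp (-(a * R / 8))) * Kl)) := by
              rw [Finset.sum_const, nsmul_eq_mul]
          _ ≤ (K0 * (1 + R) ^ 2) *
              (4 * A * Real.exp 1 * M * ((m + Real.exp (-(a * R / 8))) * Kl)) := by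
              refine mul_le_mul_of_nonneg_right (hK L p R hR0.le) (by positivity)
          _ = _ := by ring
      have hcoef : 4 * A * Real.exp 1 *
          ((m + Real.exp (-(a * R / 8))) * (K0 * (1 + R) ^ 2 * Kl)) ≤ 1 / 2 := by
        refine le_trans ?_ hR
        have hE := Real.exp_pos (-(a * R / 8))
        have h1 : (1 + R) ^ 2 ≤ 4 * R ^ 2 := by nlinarith
        have h2 : 4 * A * Real.exp 1 *
            ((m + Real.exp (-(a * R / 8))) * (K0 * (1 + R) ^ 2 * Kl)) ≤
            4 * A * Real.exp 1 *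
            ((m + Real.exp (-(a * R / 8))) * (K0 * (4 * R ^ 2) * Kl)) := by
          gcongr
        exact h2.trans (le_of_eq (by ring))
      have hfin : M ≤ 1 / 2 * M := by
        calc M ≤ 4 * A * Real.exp 1 * M *
              ((m + Real.exp (-(a * R / 8))) * (K0 * (1 + R) ^ 2 * Kl)) := hsum
          _ = (4 * A * Real.exp 1 *
              ((m + Real.exp (-(a * R / 8))) * (K0 * (1 + R) ^ 2 * Kl))) * M := by ring
          _ ≤ 1 / 2 * M := mul_le_mul_of_nonneg_right hcoef hM0
      have := Real.exp_pos 1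
      linarith
  intro x y
  refine (hmax x y).trans ?_
  rw [neg_mul]
  refine mul_le_mul_of_nonneg_right (hMe.trans ?_) (Real.exp_pos _).le
  exact Real.exp_le_exp.mpr (by norm_num)


theorem tend0 (n : ℕ) (c : ℝ) (hc : 0 < c) :
    Filter.Tendsto (fun x : ℝ => x ^ n * Real.exp (-(c * x))) Filter.atTop (nhds 0) := by
  have h2 := Real.tendsto_pow_mul_exp_neg_atTop_nhds_zero n
  have h3 : Filter.Tendsto (fun R : ℝ => c * R) Filter.atTop Filter.atTop :=
    Filter.tendsto_id.const_mul_atTop hc
  have h4 := (h2.comp h3).const_mul ((1 / c) ^ n)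
  rw [mul_zero] at h4
  refine h4.congr fun R => ?_
  simp only [Function.comp]
  rw [← mul_assoc, ← mul_pow]
  congr 2
  field_simp

/-- the choice of the scale -/
theorem scale2 (P₀ a C : ℝ) (hP₀ : 0 < P₀) (ha : 0 < a) (hC : 1 ≤ C) : ∃ C' : ℝ, 1 ≤ C' ∧
    ∀ A : ℝ, 0 ≤ A → ∀ N : ℕ, 3 ≤ N → ∃ (n : ℕ) (R : ℝ),
      Real.exp (C * (1 + A / N)) * 400 ^ n ≤ R / 4 ∧ 4 ≤ R ∧ 2 / a ≤ R ∧
      P₀ * A * (((1 / 2) ^ (2 ^ n) + (Real.exp (C * (1 + A) * (R / 4) ^ 2 *
        Real.exp (-(a / 2) * √(R / 4))) - 1)) * R ^ 2 + R ^ 2 * Real.exp (-(a * R / 8))) ≤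
          1 / 2 ∧
      R ≤ Real.exp (C' * (1 + (A / N + Real.log (1 + Real.log N)))) := by
  have hC0 : 0 < C := by linarith
  have e1 : ∀ᶠ x : ℝ in Filter.atTop, x ^ 18 * Real.exp (-(1 / 4 * x)) < 1 / (6 * P₀) :=
    (tend0 18 (1 / 4) (by norm_num)).eventually (gt_mem_nhds (by positivity))
  have e2 : ∀ᶠ x : ℝ in Filter.atTop, x ^ 8 * Real.exp (-(a / 8 * x)) <
      1 / (12 * C * (1 + P₀)) :=
    (tend0 8 (a / 8) (by positivity)).eventually (gt_mem_nhds (by positivity))
  have e3 : ∀ᶠ x : ℝ in Filter.atTop, x ^ 2 * Real.exp (-(a / 16 * x)) < 1 / (6 * P₀) :=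
    (tend0 2 (a / 16) (by positivity)).eventually (gt_mem_nhds (by positivity))
  obtain ⟨M₀, hM₀⟩ := Filter.eventually_atTop.1 (e1.and (e2.and e3))
  obtain ⟨M, hM⟩ : ∃ M : ℝ, M = max M₀ (max (2 / a) (max (16 / a) 4)) := ⟨_, rfl⟩
  have hM1 : M₀ ≤ M := by rw [hM]; exact le_max_left _ _
  have hM2 : 2 / a ≤ M := by rw [hM]; exact (le_max_left _ _).trans (le_max_right _ _)
  have hM3 : 16 / a ≤ M := by
    rw [hM]; exact (le_max_left _ _).trans ((le_max_right _ _).trans (le_max_right _ _))
  have hM4 : 4 ≤ M := by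
    rw [hM]; exact (le_max_right _ _).trans ((le_max_right _ _).trans (le_max_right _ _))
  obtain ⟨C2, hC2⟩ : ∃ C2 : ℝ, C2 = C + 2 := ⟨_, rfl⟩
  obtain ⟨C1, hC1⟩ : ∃ C1 : ℝ, C1 = M + 12 * C2 := ⟨_, rfl⟩
  have hC1p : 4 ≤ C1 := by linarith
  have hlogC1 : 0 ≤ Real.log (2 * C1) := Real.log_nonneg (by linarith)
  refine ⟨C2 + 9 * Real.log (2 * C1) + 9, by linarith, ?_⟩
  intro A hA N hN
  have hN3 : (3 : ℝ) ≤ N := by exact_mod_cast hN
  have hN0 : (0 : ℝ) < N := by linarith
  obtain ⟨k, hk⟩ : ∃ k : ℝ, k = A / N := ⟨_, rfl⟩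
  obtain ⟨l, hl⟩ : ∃ l : ℝ, l = Real.log N := ⟨_, rfl⟩
  obtain ⟨D, hD⟩ : ∃ D : ℝ, D = 1 + k + l := ⟨_, rfl⟩
  have hk0 : 0 ≤ k := by rw [hk]; positivity
  have hl0 : 0 ≤ l := by rw [hl]; exact Real.log_nonneg (by linarith)
  have hD1 : 1 ≤ D := by linarith
  have hAk : A = N * k := by rw [hk]; field_simp
  have hNe : (N : ℝ) = Real.exp l := by rw [hl, Real.exp_log hN0]
  have hAD : 1 + A ≤ Real.exp D := by
    have h1 : 1 + A ≤ N * (1 + k) := by rw [hAk]; linarith
    have h2 : 1 + k ≤ Real.exp k := by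
      have := Real.add_one_le_exp k
      linarith
    calc 1 + A ≤ N * (1 + k) := h1
      _ ≤ N * Real.exp k := mul_le_mul_of_nonneg_left h2 hN0.le
      _ = Real.exp (l + k) := by rw [hNe, ← Real.exp_add]
      _ ≤ Real.exp D := Real.exp_le_exp.2 (by linarith)
  have hAD' : A ≤ Real.exp D := by linarith
  have hCD : 1 ≤ C1 * D := by nlinarith
  obtain ⟨n₀, hn1, hn2⟩ := exists_nat_pow_near hCD (by norm_num : (1 : ℝ) < 2)
  obtain ⟨n, hn⟩ : ∃ n : ℕ, n = n₀ + 1 := ⟨_, rfl⟩
  obtain ⟨T, hT⟩ : ∃ T : ℝ, T = (2 : ℝ) ^ n := ⟨_, rfl⟩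
  have hT1 : C1 * D ≤ T := by rw [hT, hn]; exact hn2.le
  have hT2 : T ≤ 2 * C1 * D := by
    rw [hT, hn, pow_succ]
    linarith
  have hTC1 : C1 ≤ T := by nlinarith
  have hT0 : 1 ≤ T := by linarith
  have hTp : 0 < T := by linarith
  have h400 : (400 : ℝ) ^ n ≤ T ^ 9 := by
    rw [hT, ← pow_mul, mul_comm, pow_mul]
    exact pow_le_pow_left₀ (by norm_num) (by norm_num) n
  have h400' : T ^ 8 ≤ (400 : ℝ) ^ n := by
    rw [hT, ← pow_mul, mul_comm, pow_mul]
    exact pow_le_pow_left₀ (by norm_num) (by norm_num) n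
  obtain ⟨R, hR⟩ : ∃ R : ℝ, R = Real.exp (C2 * (1 + k)) * 400 ^ n := ⟨_, rfl⟩
  have hexp1 : 1 ≤ Real.exp (C2 * (1 + k)) := Real.one_le_exp (by nlinarith)
  have hRT : T ^ 8 ≤ R := by
    rw [hR]
    calc T ^ 8 ≤ 400 ^ n := h400'
      _ = 1 * 400 ^ n := (one_mul _).symm
      _ ≤ _ := mul_le_mul_of_nonneg_right hexp1 (by positivity)
  have hR0 : 0 < R := lt_of_lt_of_le (by positivity) hRT
  obtain ⟨x, hx⟩ : ∃ x : ℝ, x = √R := ⟨_, rfl⟩
  have hx0 : 0 ≤ x := by rw [hx]; exact Real.sqrt_nonneg R
  have hx2 : x ^ 2 = R := by rw [hx]; exact Real.sq_sqrt hR0.le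
  have hxT4 : T ^ 4 ≤ x := by
    rw [hx]
    refine Real.le_sqrt_of_sq_le ?_
    rw [← pow_mul]
    exact hRT
  have hxT : T ≤ x := (le_self_pow₀ hT0 (by norm_num)).trans hxT4
  have hx1 : 1 ≤ x := hT0.trans hxT
  have hxR : x ≤ R := by
    rw [← hx2]
    exact le_self_pow₀ hx1 (by norm_num)
  have hMT : M ≤ T := by linarith
  have hDx : D ≤ a / 16 * x := by
    have h1 : 16 / a * D ≤ x := by
      have h2 : 16 / a ≤ C1 := by linarith
      have h3 : 16 / a * D ≤ C1 * D := mul_le_mul_of_nonneg_right h2 (by linarith)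
      linarith
    have h4 : D = a / 16 * (16 / a * D) := by field_simp
    rw [h4]
    exact mul_le_mul_of_nonneg_left h1 (by positivity)
  have hAx : 1 + A ≤ Real.exp (a / 16 * x) := hAD.trans (Real.exp_le_exp.2 hDx)
  have hAx' : A ≤ Real.exp (a / 16 * x) := by linarith
  have E1 : T ^ 18 * Real.exp (-(1 / 4 * T)) ≤ 1 / (6 * P₀) := (hM₀ T (by linarith)).1.le
  have E2 : x ^ 8 * Real.exp (-(a / 8 * x)) ≤ 1 / (12 * C * (1 + P₀)) :=
    (hM₀ x (by linarith)).2.1.le
  have E3 : R ^ 2 * Real.exp (-(a / 16 * R)) ≤ 1 / (6 * P₀) := (hM₀ R (by linarith)).2.2.le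
  refine ⟨n, R, ?_, by linarith, by linarith, ?_, ?_⟩
  · rw [hR, ← hk]
    have h1 : Real.exp (C * (1 + k)) * 4 ≤ Real.exp (C2 * (1 + k)) := by
      have h2 : C2 * (1 + k) = C * (1 + k) + 2 * (1 + k) := by rw [hC2]; ring
      rw [h2, Real.exp_add]
      refine mul_le_mul_of_nonneg_left ?_ (Real.exp_pos _).le
      have h3 : Real.exp 2 ≤ Real.exp (2 * (1 + k)) := Real.exp_le_exp.2 (by linarith)
      refine le_trans ?_ h3
      have h4 := Real.add_one_le_exp (1 : ℝ)
      have h5 : Real.exp 2 = Real.exp 1 * Real.exp 1 := by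
        rw [← Real.exp_add]
        norm_num
      rw [h5]
      nlinarith
    have h6 : (0 : ℝ) < 400 ^ n := by positivity
    nlinarith
  · have hsq : √(R / 4) = x / 2 := by
      rw [Real.sqrt_div hR0.le, hx, show (4 : ℝ) = 2 ^ 2 by norm_num,
        Real.sqrt_sq (by norm_num)]
    rw [hsq]
    -- first term
    have t1 : P₀ * A * ((1 / 2) ^ (2 ^ n) * R ^ 2) ≤ 1 / 6 := by
      have h1 : ((1 : ℝ) / 2) ^ (2 ^ n) ≤ Real.exp (-(1 / 2 * T)) := by
        have h2 : ((1 : ℝ) / 2) ≤ Real.exp (-(1 / 2)) := by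
          have h3 : Real.exp (-(Real.log 2)) = 1 / 2 := by
            rw [Real.exp_neg, Real.exp_log (by norm_num), one_div]
          rw [← h3]
          refine Real.exp_le_exp.2 ?_
          have := Real.log_two_gt_d9
          linarith
        calc ((1 : ℝ) / 2) ^ (2 ^ n) ≤ (Real.exp (-(1 / 2))) ^ (2 ^ n) :=
              pow_le_pow_left₀ (by norm_num) h2 _
          _ = Real.exp (-(1 / 2 * T)) := by
              rw [← Real.exp_nat_mul]
              congr 1
              rw [hT]
              push_cast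
              ring
      have h4 : R ^ 2 ≤ Real.exp (2 * C2 * D) * T ^ 18 := by
        have h5 : R ^ 2 = Real.exp (2 * C2 * (1 + k)) * (400 ^ n) ^ 2 := by
          rw [hR, mul_pow, ← Real.exp_nat_mul]
          congr 2
          push_cast
          ring
        rw [h5]
        refine mul_le_mul (Real.exp_le_exp.2 ?_) ?_ (by positivity) (Real.exp_pos _).le
        · refine mul_le_mul_of_nonneg_left (by linarith) (by linarith)
        · calc ((400 : ℝ) ^ n) ^ 2 ≤ (T ^ 9) ^ 2 := pow_le_pow_left₀ (by positivity) h400 2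
            _ = T ^ 18 := by ring
      have h6 : A * ((1 / 2) ^ (2 ^ n) * R ^ 2) ≤ T ^ 18 * Real.exp (-(1 / 4 * T)) := by
        calc A * ((1 / 2) ^ (2 ^ n) * R ^ 2)
            ≤ Real.exp D * (Real.exp (-(1 / 2 * T)) * (Real.exp (2 * C2 * D) * T ^ 18)) := by
              refine mul_le_mul hAD' ?_ (by positivity) (Real.exp_pos _).le
              exact mul_le_mul h1 h4 (by positivity) (Real.exp_pos _).le
          _ = T ^ 18 * (Real.exp (D + (-(1 / 2 * T) + 2 * C2 * D))) := by
              rw [Real.exp_add, Real.exp_add]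
              ring
          _ ≤ T ^ 18 * Real.exp (-(1 / 4 * T)) := by
              refine mul_le_mul_of_nonneg_left (Real.exp_le_exp.2 ?_) (by positivity)
              have h7 : D + 2 * C2 * D ≤ 3 * C2 * D := by nlinarith
              have h8 : 12 * C2 * D ≤ T := by
                refine le_trans ?_ hT1
                exact mul_le_mul_of_nonneg_right (by linarith) (by linarith)
              linarith
      calc P₀ * A * ((1 / 2) ^ (2 ^ n) * R ^ 2) = P₀ * (A * ((1 / 2) ^ (2 ^ n) * R ^ 2)) := by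
            ring
        _ ≤ P₀ * (1 / (6 * P₀)) := mul_le_mul_of_nonneg_left (h6.trans E1) hP₀.le
        _ = 1 / 6 := by field_simp
    -- second term
    obtain ⟨u, hu⟩ : ∃ u : ℝ, u = C * (1 + A) * (R / 4) ^ 2 *
        Real.exp (-(a / 2) * (x / 2)) := ⟨_, rfl⟩
    rw [← hu]
    have hu0 : 0 ≤ u := by rw [hu]; positivity
    have hu1 : u ≤ C * (x ^ 4 * Real.exp (-(3 * a / 16 * x))) := by
      rw [hu]
      calc C * (1 + A) * (R / 4) ^ 2 * Real.exp (-(a / 2) * (x / 2))
          ≤ C * Real.exp (a / 16 * x) * (x ^ 4) * Real.exp (-(a / 2) * (x / 2)) := by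
            refine mul_le_mul_of_nonneg_right ?_ (Real.exp_pos _).le
            refine mul_le_mul (mul_le_mul_of_nonneg_left hAx hC0.le) ?_ (by positivity)
              (by positivity)
            have h1 : x ^ 4 = R ^ 2 := by rw [← hx2]; ring
            rw [h1]
            nlinarith
        _ = C * (x ^ 4 * Real.exp (a / 16 * x + -(a / 2) * (x / 2))) := by
            rw [Real.exp_add]
            ring
        _ = _ := by
            congr 3
            ring
    have hPC : 0 < 12 * C * (1 + P₀) := by positivity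
    have hu2 : C * (x ^ 8 * Real.exp (-(a / 8 * x))) ≤ 1 / (12 * (1 + P₀)) := by
      calc C * (x ^ 8 * Real.exp (-(a / 8 * x))) ≤ C * (1 / (12 * C * (1 + P₀))) :=
            mul_le_mul_of_nonneg_left E2 hC0.le
        _ = 1 / (12 * (1 + P₀)) := by field_simp
    have hu3 : u ≤ 1 := by
      refine hu1.trans (le_trans ?_ (hu2.trans ?_))
      · refine mul_le_mul_of_nonneg_left ?_ hC0.le
        refine mul_le_mul (pow_le_pow_right₀ hx1 (by norm_num)) (Real.exp_le_exp.2 ?_)
          (Real.exp_pos _).le (by positivity)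
        nlinarith [mul_nonneg ha.le hx0]
      · rw [div_le_one (by positivity)]
        linarith
    have hu4 : Real.exp u - 1 ≤ 2 * u := by
      have h1 := Real.abs_exp_sub_one_le (x := u) (by rw [abs_of_nonneg hu0]; exact hu3)
      rw [abs_of_nonneg hu0] at h1
      exact (le_abs_self _).trans h1
    have t2 : P₀ * A * ((Real.exp u - 1) * R ^ 2) ≤ 1 / 6 := by
      have h1 : x ^ 4 = R ^ 2 := by rw [← hx2]; ring
      calc P₀ * A * ((Real.exp u - 1) * R ^ 2)
          ≤ P₀ * Real.exp (a / 16 * x) *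
              ((2 * (C * (x ^ 4 * Real.exp (-(3 * a / 16 * x))))) * R ^ 2) := by
            refine mul_le_mul (mul_le_mul_of_nonneg_left hAx' hP₀.le) ?_ ?_ (by positivity)
            · refine mul_le_mul_of_nonneg_right ?_ (by positivity)
              linarith
            · have : 0 ≤ Real.exp u - 1 := by
                have := Real.one_le_exp hu0
                linarith
              positivity
        _ = 2 * P₀ * (C * (x ^ 8 * Real.exp (a / 16 * x + -(3 * a / 16 * x)))) := by
            rw [Real.exp_add, ← h1]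
            ring
        _ = 2 * P₀ * (C * (x ^ 8 * Real.exp (-(a / 8 * x)))) := by
            congr 4
            ring
        _ ≤ 2 * P₀ * (1 / (12 * (1 + P₀))) := mul_le_mul_of_nonneg_left hu2 (by positivity)
        _ ≤ 1 / 6 := by
            rw [mul_one_div, div_le_iff₀ (by positivity)]
            linarith
    -- third term
    have t3 : P₀ * A * (R ^ 2 * Real.exp (-(a * R / 8))) ≤ 1 / 6 := by
      calc P₀ * A * (R ^ 2 * Real.exp (-(a * R / 8)))
          ≤ P₀ * Real.exp (a / 16 * R) * (R ^ 2 * Real.exp (-(a * R / 8))) := by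
            refine mul_le_mul_of_nonneg_right (mul_le_mul_of_nonneg_left ?_ hP₀.le)
              (by positivity)
            refine hAx'.trans (Real.exp_le_exp.2 ?_)
            exact mul_le_mul_of_nonneg_left hxR (by positivity)
        _ = P₀ * (R ^ 2 * Real.exp (a / 16 * R + -(a * R / 8))) := by
            rw [Real.exp_add]
            ring
        _ = P₀ * (R ^ 2 * Real.exp (-(a / 16 * R))) := by
            congr 3
            ring
        _ ≤ P₀ * (1 / (6 * P₀)) := mul_le_mul_of_nonneg_left E3 hP₀.le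
        _ = 1 / 6 := by field_simp
    calc P₀ * A * (((1 / 2) ^ (2 ^ n) + (Real.exp u - 1)) * R ^ 2 +
          R ^ 2 * Real.exp (-(a * R / 8)))
        = P₀ * A * ((1 / 2) ^ (2 ^ n) * R ^ 2) + P₀ * A * ((Real.exp u - 1) * R ^ 2) +
          P₀ * A * (R ^ 2 * Real.exp (-(a * R / 8))) := by ring
      _ ≤ 1 / 2 := by linarith
  · rw [← hk, ← hl]
    have hlog : 0 ≤ Real.log (1 + l) := Real.log_nonneg (by linarith)
    have hl1 : 1 + l = Real.exp (Real.log (1 + l)) := (Real.exp_log (by linarith)).symm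
    have h1 : 2 * C1 * D ≤ Real.exp (Real.log (2 * C1) + k + Real.log (1 + l)) := by
      rw [Real.exp_add, Real.exp_add, Real.exp_log (by linarith), ← hl1]
      have h2 : 1 + k ≤ Real.exp k := by
        have := Real.add_one_le_exp k
        linarith
      have h3 : D ≤ (1 + k) * (1 + l) := by
        rw [hD]
        nlinarith
      have h4 : (1 + k) * (1 + l) ≤ Real.exp k * (1 + l) :=
        mul_le_mul_of_nonneg_right h2 (by linarith)
      calc 2 * C1 * D ≤ 2 * C1 * (Real.exp k * (1 + l)) :=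
            mul_le_mul_of_nonneg_left (h3.trans h4) (by linarith)
        _ = _ := by ring
    have h5 : T ^ 9 ≤ Real.exp (9 * (Real.log (2 * C1) + k + Real.log (1 + l))) := by
      calc T ^ 9 ≤ (Real.exp (Real.log (2 * C1) + k + Real.log (1 + l))) ^ 9 :=
            pow_le_pow_left₀ hTp.le (hT2.trans h1) 9
        _ = _ := by
            rw [← Real.exp_nat_mul]
            norm_num
    calc R = Real.exp (C2 * (1 + k)) * 400 ^ n := hR
      _ ≤ Real.exp (C2 * (1 + k)) *
          Real.exp (9 * (Real.log (2 * C1) + k + Real.log (1 + l))) :=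
          mul_le_mul_of_nonneg_left (h400.trans h5) (Real.exp_pos _).le
      _ = Real.exp (C2 * (1 + k) + 9 * (Real.log (2 * C1) + k + Real.log (1 + l))) := by
          rw [Real.exp_add]
      _ ≤ _ := by
          refine Real.exp_le_exp.2 ?_
          have g1 : 0 ≤ C2 := by linarith
          nlinarith [mul_nonneg g1 hlog, mul_nonneg hlogC1 hk0, mul_nonneg hlogC1 hlog]

/-- the decay of the correlations from the influence of the boundary -/
theorem fin_of (hI : Pool.Agent.H970.RN.S_inf) : Pool.Agent.H970.RN.S_fin := by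
  intro a ha
  obtain ⟨C, hC, hI'⟩ := hI a ha
  obtain ⟨P₀, hP₀, hdec⟩ := decayR a ha
  obtain ⟨C', hC', hsc⟩ := scale2 P₀ a C hP₀ ha hC
  refine ⟨C', hC', ?_⟩
  intro A hA N hN L _ c hc x y
  obtain ⟨n, R, h1, h2, h3, h4, h5⟩ := hsc A hA N hN
  have hMB := hI' A hA N hN n (R / 4) h1
  have hR0 : 0 < R := by linarith
  have hm : 0 ≤ ((1 / 2 : ℝ) ^ (2 ^ n) + (Real.exp (C * (1 + A) * (R / 4) ^ 2 *
      Real.exp (-(a / 2) * √(R / 4))) - 1)) := by
    have e1 : (0 : ℝ) ≤ (1 / 2 : ℝ) ^ (2 ^ n) := by positivity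
    have e2 : 1 ≤ Real.exp (C * (1 + A) * (R / 4) ^ 2 * Real.exp (-(a / 2) * √(R / 4))) :=
      Real.one_le_exp (by positivity)
    linarith
  have h6 := hdec A hA N hN R _ hm h2 h3 hMB h4 L c hc x y
  change corS (N := N) c x y ≤ _
  refine h6.trans (mul_le_mul_of_nonneg_left (Real.exp_le_exp.2 ?_) (Real.exp_pos _).le)
  refine mul_le_mul_of_nonneg_right (neg_le_neg ?_) (tnorm_nonneg _)
  rw [Real.exp_neg, ← one_div]
  exact one_div_le_one_div_of_le hR0 h5

end Pool.Agent.H297.RN
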